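import Pool.Agent.Helper67.NO.St1

set_option autoImplicit false

namespace Pool.Agent.Helper33.NO

open Pool.Agent.Helper67.NO
open Matrix
open scoped Matrix.Norms.Frobenius ContDiff Topology ComplexOrder

private lemma nsq_entries {n : Type} [Fintype n] (x : Matrix n n ℂ) :
    ‖x‖ ^ 2 = ∑ p, ∑ q, ‖x p q‖ ^ 2 := by
  rw [frobenius_norm_def, ← Real.sqrt_eq_rpow, Real.sq_sqrt]
  · simp only [Real.rpow_two]
  · positivity

private lemma sum_diag (n : Type) [Fintype n] (x : Matrix n n ℂ) (q : n) :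
    ((xᴴ * x) q q).re = ∑ p, ‖x p q‖ ^ 2 := by
  simp only [Matrix.mul_apply, Matrix.conjTranspose_apply, Complex.re_sum]
  apply Finset.sum_congr rfl
  intro p _
  rw [← Complex.normSq_eq_norm_sq]
  change ((starRingEnd ℂ) (x p q) * x p q).re = _
  rw [← Complex.normSq_eq_conj_mul_self, Complex.ofReal_re]

private lemma sum_diag' (n : Type) [Fintype n] (x : Matrix n n ℂ) (p : n) :
    ((x * xᴴ) p p).re = ∑ q, ‖x p q‖ ^ 2 := by
  simp only [Matrix.mul_apply, Matrix.conjTranspose_apply, Complex.re_sum]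
  apply Finset.sum_congr rfl
  intro q _
  rw [← Complex.normSq_eq_norm_sq]
  change (x p q * (starRingEnd ℂ) (x p q)).re = _
  rw [Complex.mul_conj, Complex.ofReal_re]

private lemma nsq_trace {n : Type} [Fintype n] (x : Matrix n n ℂ) :
    ‖x‖ ^ 2 = (trace (xᴴ * x)).re := by
  rw [nsq_entries, Finset.sum_comm]
  simp only [trace, diag, Complex.re_sum, sum_diag]

/-- norm of a conjugate by an invertible matrix, in terms of `gᴴ g = U diag(L) Uᴴ` -/
private lemma conj_norm {n : Type} [Fintype n] [DecidableEq n] (g gi U a : Matrix n n ℂ)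
    (L : n → ℝ) (hL : ∀ p, 0 < L p) (hg : g * gi = 1) (hU : U * Uᴴ = 1)
    (hgg : gᴴ * g = U * diagonal (fun p => (L p : ℂ)) * Uᴴ) :
    ‖g * a * gi‖ ^ 2 = ∑ p, ∑ q, L p / L q * ‖(Uᴴ * a * U) p q‖ ^ 2 := by
  have hU' : Uᴴ * U = 1 := mul_eq_one_comm.mp hU
  have hg' : gi * g = 1 := mul_eq_one_comm.mp hg
  have hii : gi * giᴴ = U * diagonal (fun p => ((L p)⁻¹ : ℂ)) * Uᴴ := by
    have h1 : (U * diagonal (fun p => ((L p)⁻¹ : ℂ)) * Uᴴ) * (gᴴ * g) = 1 := by
      rw [hgg]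
      calc (U * diagonal (fun p => ((L p)⁻¹ : ℂ)) * Uᴴ) * (U * diagonal (fun p => (L p : ℂ)) * Uᴴ)
          = U * diagonal (fun p => ((L p)⁻¹ : ℂ)) * (Uᴴ * U) * diagonal (fun p => (L p : ℂ)) * Uᴴ := by
            simp only [Matrix.mul_assoc]
        _ = U * (diagonal (fun p => ((L p)⁻¹ : ℂ)) * diagonal (fun p => (L p : ℂ))) * Uᴴ := by
            rw [hU']; simp only [Matrix.mul_assoc, Matrix.one_mul]
        _ = 1 := by
            rw [diagonal_mul_diagonal]
            have : (fun p => ((L p : ℂ)⁻¹ * (L p : ℂ))) = fun _ => 1 := by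
              funext p
              exact inv_mul_cancel₀ (Complex.ofReal_ne_zero.mpr (hL p).ne')
            rw [this, diagonal_one, Matrix.mul_one, hU]
    have h2 : (gᴴ * g) * (gi * giᴴ) = 1 := by
      calc (gᴴ * g) * (gi * giᴴ) = gᴴ * (g * gi) * giᴴ := by simp only [Matrix.mul_assoc]
        _ = (gi * g)ᴴ := by rw [hg, Matrix.mul_one, conjTranspose_mul]
        _ = 1 := by rw [hg', conjTranspose_one]
    calc gi * giᴴ = ((U * diagonal (fun p => ((L p)⁻¹ : ℂ)) * Uᴴ) * (gᴴ * g)) * (gi * giᴴ) := by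
          rw [h1, Matrix.one_mul]
      _ = (U * diagonal (fun p => ((L p)⁻¹ : ℂ)) * Uᴴ) * ((gᴴ * g) * (gi * giᴴ)) := by
          simp only [Matrix.mul_assoc]
      _ = _ := by rw [h2, Matrix.mul_one]
  rw [nsq_trace]
  have e1 : trace ((g * a * gi)ᴴ * (g * a * gi)) = trace (aᴴ * (gᴴ * g) * a * (gi * giᴴ)) := by
    rw [conjTranspose_mul, conjTranspose_mul]
    calc trace (giᴴ * (aᴴ * gᴴ) * (g * a * gi)) = trace (giᴴ * (aᴴ * gᴴ * (g * a * gi))) := by
          simp only [Matrix.mul_assoc]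
      _ = trace (aᴴ * gᴴ * (g * a * gi) * giᴴ) := trace_mul_comm _ _
      _ = _ := by simp only [Matrix.mul_assoc]
  have e2 : trace (aᴴ * (gᴴ * g) * a * (gi * giᴴ)) =
      trace ((Uᴴ * a * U)ᴴ * diagonal (fun p => (L p : ℂ)) * (Uᴴ * a * U) *
        diagonal (fun p => ((L p)⁻¹ : ℂ))) := by
    rw [hgg, hii, conjTranspose_mul, conjTranspose_mul, conjTranspose_conjTranspose]
    calc trace (aᴴ * (U * diagonal (fun p => (L p : ℂ)) * Uᴴ) * a *
          (U * diagonal (fun p => ((L p)⁻¹ : ℂ)) * Uᴴ))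
        = trace ((aᴴ * (U * diagonal (fun p => (L p : ℂ)) * Uᴴ) * a *
          (U * diagonal (fun p => ((L p)⁻¹ : ℂ)))) * Uᴴ) := by simp only [Matrix.mul_assoc]
      _ = trace (Uᴴ * (aᴴ * (U * diagonal (fun p => (L p : ℂ)) * Uᴴ) * a *
          (U * diagonal (fun p => ((L p)⁻¹ : ℂ))))) := trace_mul_comm _ _
      _ = _ := by simp only [Matrix.mul_assoc]
  rw [e1, e2, Finset.sum_comm]
  simp only [trace, diag, Complex.re_sum]
  apply Finset.sum_congr rfl
  intro q _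
  rw [Matrix.mul_diagonal, Matrix.mul_apply, Finset.sum_mul, Complex.re_sum]
  apply Finset.sum_congr rfl
  intro p _
  rw [Matrix.mul_diagonal, Matrix.conjTranspose_apply]
  generalize (Uᴴ * a * U) p q = z
  have : star z * (L p : ℂ) * z * ((L q : ℂ)⁻¹) = ((L p / L q * Complex.normSq z : ℝ) : ℂ) := by
    push_cast
    rw [Complex.normSq_eq_conj_mul_self]
    change (starRingEnd ℂ) z * (L p : ℂ) * z * ((L q : ℂ)⁻¹) = _
    ring
  rw [this, Complex.ofReal_re, Complex.normSq_eq_norm_sq]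

private lemma conj_ge {n : Type} [Fintype n] (x : Matrix n n ℂ)
    (L : n → ℝ) (hL : ∀ p, 0 < L p) :
    ‖x‖ ^ 2 + ∑ p, Real.log (L p) * ((br x xᴴ) p p).re ≤
      ∑ p, ∑ q, L p / L q * ‖x p q‖ ^ 2 := by
  have h1 : ∑ p, Real.log (L p) * ((br x xᴴ) p p).re =
      ∑ p, ∑ q, (Real.log (L p) - Real.log (L q)) * ‖x p q‖ ^ 2 := by
    have e : ∀ p, ((br x xᴴ) p p).re = ∑ q, ‖x p q‖ ^ 2 - ∑ q, ‖x q p‖ ^ 2 := by
      intro p
      rw [br, Matrix.sub_apply, Complex.sub_re, sum_diag, sum_diag']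
    simp only [e, mul_sub, Finset.sum_sub_distrib, sub_mul, Finset.mul_sum]
    congr 1
    rw [Finset.sum_comm]
  rw [h1, nsq_entries, ← Finset.sum_add_distrib]
  apply Finset.sum_le_sum
  intro p _
  rw [← Finset.sum_add_distrib]
  apply Finset.sum_le_sum
  intro q _
  have h2 : 1 + (Real.log (L p) - Real.log (L q)) ≤ L p / L q := by
    rw [← Real.log_div (hL p).ne' (hL q).ne']
    have := Real.add_one_le_exp (Real.log (L p / L q))
    rw [Real.exp_log (div_pos (hL p) (hL q))] at this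
    linarith
  have h3 := mul_le_mul_of_nonneg_right h2 (sq_nonneg ‖x p q‖)
  linarith

theorem pKNI : StKNI := by
  intro ι κ _ _ _ _ a b u hcrit hu
  obtain ⟨H, hH⟩ := hcrit
  obtain ⟨ui, hui⟩ := hu.exists_right_inv
  have hui' : ui * u = 1 := mul_eq_one_comm.mp hui
  have hP : (uᴴ * u).PosDef := by
    apply Matrix.PosDef.conjTranspose_mul_self
    intro v w hvw
    have := congrArg (fun z => ui *ᵥ z) hvw
    simpa [Matrix.mulVec_mulVec, hui'] using this
  let V : Matrix κ κ ℂ := (hP.1.eigenvectorUnitary : Matrix κ κ ℂ)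
  let l : κ → ℝ := hP.1.eigenvalues
  have hl : ∀ q, 0 < l q := fun q => hP.eigenvalues_pos q
  have hV : V * Vᴴ = 1 := Unitary.coe_mul_star_self hP.1.eigenvectorUnitary
  have hV' : Vᴴ * V = 1 := mul_eq_one_comm.mp hV
  have hsp : uᴴ * u = V * diagonal (fun p => (l p : ℂ)) * Vᴴ := by
    have := hP.1.spectral_theorem
    rw [Unitary.conjStarAlgAut_apply] at this
    exact this
  let U : Matrix (ι ⊕ κ) (ι ⊕ κ) ℂ := bd 1 V
  let L : ι ⊕ κ → ℝ := Sum.elim (fun _ => 1) l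
  have hL : ∀ p, 0 < L p := by
    rintro (p | p)
    · exact one_pos
    · exact hl p
  have hUH : Uᴴ = bd 1 Vᴴ := by
    simp only [U, bd, fromBlocks_conjTranspose, conjTranspose_one, conjTranspose_zero]
  have hU : U * Uᴴ = 1 := by
    rw [hUH]
    simp only [U, bd, fromBlocks_multiply, Matrix.mul_one, Matrix.mul_zero, add_zero,
      Matrix.zero_mul, zero_add, hV, fromBlocks_one]
  have hG : (bd 1 u : Matrix (ι ⊕ κ) (ι ⊕ κ) ℂ) * bd 1 ui = 1 := by
    simp only [bd, fromBlocks_multiply, Matrix.mul_one, Matrix.mul_zero, add_zero,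
      Matrix.zero_mul, zero_add, hui, fromBlocks_one]
  have hGi : (bd 1 u : Matrix (ι ⊕ κ) (ι ⊕ κ) ℂ)⁻¹ = bd 1 ui := inv_eq_right_inv hG
  have hdiag : diagonal (fun p => (L p : ℂ)) = bd 1 (diagonal (fun p => (l p : ℂ))) := by
    rw [bd, ← diagonal_one, fromBlocks_diagonal]
    congr 1
    funext p
    rcases p with p | p
    · simp [L]
    · simp [L]
  have hGG : (bd 1 u : Matrix (ι ⊕ κ) (ι ⊕ κ) ℂ)ᴴ * bd 1 u =
      U * diagonal (fun p => (L p : ℂ)) * Uᴴ := by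
    rw [hUH, hdiag]
    simp only [U, bd, fromBlocks_multiply, fromBlocks_conjTranspose, conjTranspose_one,
      conjTranspose_zero, Matrix.mul_one, Matrix.mul_zero, add_zero, Matrix.zero_mul, zero_add, hsp]
  have hmom : mom (Uᴴ * a * U) (Uᴴ * b * U) = bd H 0 := by
    have e : ∀ x : Matrix (ι ⊕ κ) (ι ⊕ κ) ℂ, br (Uᴴ * x * U) (Uᴴ * x * U)ᴴ = Uᴴ * br x xᴴ * U := by
      intro x
      have hx : (Uᴴ * x * U)ᴴ = Uᴴ * xᴴ * U := by
        rw [conjTranspose_mul, conjTranspose_mul, conjTranspose_conjTranspose, Matrix.mul_assoc]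
      rw [hx, br, br]
      have e1 : Uᴴ * x * U * (Uᴴ * xᴴ * U) = Uᴴ * (x * xᴴ) * U := by
        calc Uᴴ * x * U * (Uᴴ * xᴴ * U) = Uᴴ * x * (U * Uᴴ) * xᴴ * U := by
              simp only [Matrix.mul_assoc]
          _ = _ := by rw [hU, Matrix.mul_one]; simp only [Matrix.mul_assoc]
      have e2 : Uᴴ * xᴴ * U * (Uᴴ * x * U) = Uᴴ * (xᴴ * x) * U := by
        calc Uᴴ * xᴴ * U * (Uᴴ * x * U) = Uᴴ * xᴴ * (U * Uᴴ) * x * U := by
              simp only [Matrix.mul_assoc]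
          _ = _ := by rw [hU, Matrix.mul_one]; simp only [Matrix.mul_assoc]
      rw [e1, e2, Matrix.mul_sub, Matrix.sub_mul]
    rw [mom, e, e, ← Matrix.add_mul, ← Matrix.mul_add]
    change Uᴴ * mom a b * U = _
    rw [hH, hUH]
    simp only [U, bd, fromBlocks_multiply, Matrix.mul_one, Matrix.mul_zero, add_zero,
      Matrix.zero_mul, Matrix.one_mul]
  have hU' : Uᴴ * U = 1 := mul_eq_one_comm.mp hU
  have hinv : ∀ x : Matrix (ι ⊕ κ) (ι ⊕ κ) ℂ, ‖Uᴴ * x * U‖ ^ 2 = ‖x‖ ^ 2 := by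
    intro x
    rw [nsq_trace, nsq_trace, conjTranspose_mul, conjTranspose_mul, conjTranspose_conjTranspose]
    congr 1
    calc trace (Uᴴ * (xᴴ * U) * (Uᴴ * x * U)) = trace (Uᴴ * (xᴴ * (U * Uᴴ) * x * U)) := by
          simp only [Matrix.mul_assoc]
      _ = trace ((xᴴ * (U * Uᴴ) * x * U) * Uᴴ) := trace_mul_comm _ _
      _ = trace (xᴴ * (U * Uᴴ) * x * (U * Uᴴ)) := by simp only [Matrix.mul_assoc]
      _ = _ := by rw [hU, Matrix.mul_one, Matrix.mul_one]
  rw [nsq, nsq, hGi, conj_norm _ _ U a L hL hG hU hGG, conj_norm _ _ U b L hL hG hU hGG]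
  have ha := conj_ge (Uᴴ * a * U) L hL
  have hb := conj_ge (Uᴴ * b * U) L hL
  rw [hinv] at ha hb
  have hsum : ∑ p, Real.log (L p) * ((br (Uᴴ * a * U) (Uᴴ * a * U)ᴴ) p p).re +
      ∑ p, Real.log (L p) * ((br (Uᴴ * b * U) (Uᴴ * b * U)ᴴ) p p).re = 0 := by
    rw [← Finset.sum_add_distrib]
    apply Finset.sum_eq_zero
    intro p _
    rw [← mul_add, ← Complex.add_re, ← Matrix.add_apply]
    change Real.log (L p) * ((mom (Uᴴ * a * U) (Uᴴ * b * U)) p p).re = 0
    rw [hmom]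
    rcases p with p | p
    · simp [L]
    · simp [bd]
  linarith

end Pool.Agent.Helper33.NO
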